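import Mathlib
import Pool.Agent.H.MP_5c36f9_al.A

set_option autoImplicit false

namespace Pool.Agent.Results.MP_5c36f9_al.Sym

open Topology Pool.Agent.H.MP_5c36f9_al

universe u

theorem result (X : Type u) (f : Equiv.Perm X → ℝ) (h : SO f) :
    ∃ c, ∀ O ∈ 𝓝 c, (f ⁻¹' O)ᶜ.Finite :=
  H.MP_5c36f9_al.main f h

end Pool.Agent.Results.MP_5c36f9_al.Sym
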